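import Pool.Agent.helper60.MW.Spec

set_option autoImplicit false

/-!
Row ROT of project MW: a dense rotated cell contains a dense lattice square
-/

namespace Pool.Agent.MW

open MeasureTheory Set Pool.Agent.helper17.Worm

theorem ROT_pos (L : ℕ) : (0 : ℝ) < 2 ^ L := by positivity

theorem ROT_mem (L : ℕ) (z : ℂ) : z ∈ lsq L ⌊z.re * 2 ^ L⌋ ⌊z.im * 2 ^ L⌋ := by
  have hp := ROT_pos L
  unfold lsq
  rw [mem_rc]
  have h1 := Int.floor_le (z.re * 2 ^ L)
  have h2 := Int.lt_floor_add_one (z.re * 2 ^ L)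
  have h3 := Int.floor_le (z.im * 2 ^ L)
  have h4 := Int.lt_floor_add_one (z.im * 2 ^ L)
  refine ⟨⟨?_, ?_⟩, ?_, ?_⟩
  · rw [div_le_iff₀ hp]; exact h1
  · rw [← add_div, lt_div_iff₀ hp]; exact h2
  · rw [div_le_iff₀ hp]; exact h3
  · rw [← add_div, lt_div_iff₀ hp]; exact h4

theorem ROT_uniq {L : ℕ} {x y : ℤ} {z : ℂ} (h : z ∈ lsq L x y) :
    x = ⌊z.re * 2 ^ L⌋ ∧ y = ⌊z.im * 2 ^ L⌋ := by
  have hp := ROT_pos L
  unfold lsq at h
  rw [mem_rc] at h
  obtain ⟨⟨h1, h2⟩, h3, h4⟩ := h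
  rw [div_le_iff₀ hp] at h1 h3
  rw [← add_div, lt_div_iff₀ hp] at h2 h4
  constructor
  · exact (Int.floor_eq_iff.2 ⟨h1, h2⟩).symm
  · exact (Int.floor_eq_iff.2 ⟨h3, h4⟩).symm

/-- the distance of two points of a lattice square -/
theorem ROT_dist {L : ℕ} {x y : ℤ} {z z' : ℂ} (h : z ∈ lsq L x y) (h' : z' ∈ lsq L x y) :
    ‖z' - z‖ < 2 * (1 / 2 ^ L) := by
  have hp := ROT_pos L
  unfold lsq at h h'
  rw [mem_rc] at h h'
  obtain ⟨⟨h1, h2⟩, h3, h4⟩ := h
  obtain ⟨⟨h5, h6⟩, h7, h8⟩ := h'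
  have e1 : |(z' - z).re| < 1 / 2 ^ L := by
    rw [Complex.sub_re, abs_lt]
    constructor <;> linarith
  have e2 : |(z' - z).im| < 1 / 2 ^ L := by
    rw [Complex.sub_im, abs_lt]
    constructor <;> linarith
  have := Complex.norm_le_abs_re_add_abs_im (z' - z)
  linarith

theorem ROT_inj (g : ℝ × ℂ) {w w' : ℂ} (h : mv g w = mv g w') : w = w' := by
  have := dist_mv g w w'
  rw [h, sub_self, norm_zero] at this
  exact sub_eq_zero.1 (norm_eq_zero.1 this.symm)

theorem ROT_surj (g : ℝ × ℂ) (z : ℂ) : ∃ w, mv g w = z := by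
  refine ⟨(Complex.exp (Complex.I * g.1))⁻¹ * (z - g.2), ?_⟩
  unfold mv
  rw [mul_inv_cancel_left₀ (Complex.exp_ne_zero _), sub_add_cancel]

theorem ROT_meas (L : ℕ) (x y : ℤ) : MeasurableSet (lsq L x y) := measurableSet_rc _ _ _ _

theorem ROT_vol (L : ℕ) (x y : ℤ) : volume (lsq L x y) = ENNReal.ofReal (1 / 4 ^ L) := by
  unfold lsq
  rw [volume_rc (by positivity) (by positivity)]
  congr 1
  rw [div_mul_div_comm, ← mul_pow]
  norm_num

theorem ROT : ROT_stmt := by
  intro X hX hfin g p a κ L ha hκ hκ2 hL hocc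
  by_contra hcon
  push Not at hcon
  have hp := ROT_pos L
  set σ : ℝ := 1 / 2 ^ L with hσ
  have hσ0 : 0 < σ := by positivity
  have hL' : 8 * σ ≤ κ * a := by
    have : 8 * σ = 8 / 2 ^ L := by rw [hσ]; ring
    rw [this]; exact hL
  have hσa : 16 * σ ≤ a := by nlinarith
  set C : Set ℂ := sq p a with hC
  set I : Set ℂ := rc (p.re + 2 * σ) (a - 4 * σ) (p.im + 2 * σ) (a - 4 * σ) with hI
  have hCm : MeasurableSet C := measurableSet_rc _ _ _ _
  have hIm : MeasurableSet I := measurableSet_rc _ _ _ _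
  have hIC : I ⊆ C := by
    intro w hw
    rw [hI, mem_rc] at hw
    rw [hC]
    unfold sq
    rw [mem_rc]
    refine ⟨⟨?_, ?_⟩, ?_, ?_⟩ <;> linarith [hw.1.1, hw.1.2, hw.2.1, hw.2.2]
  have hmv : Measurable (mv g) := (mp_mv g).measurable
  let Q : ℤ × ℤ → Set ℂ := fun s => mv g ⁻¹' lsq L s.1 s.2
  have hQm : ∀ s, MeasurableSet (Q s) := fun s => hmv (ROT_meas L s.1 s.2)
  have hQd : Pairwise (Function.onFun Disjoint Q) := by
    intro s t hst
    change Disjoint (Q s) (Q t)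
    rw [Set.disjoint_left]
    intro w hw hw'
    have h1 := ROT_uniq (z := mv g w) hw
    have h2 := ROT_uniq (z := mv g w) hw'
    exact hst (Prod.ext (h1.1.trans h2.1.symm) (h1.2.trans h2.2.symm))
  have hQu : ⋃ s, Q s = univ := by
    rw [eq_univ_iff_forall]
    intro w
    rw [mem_iUnion]
    exact ⟨(⌊(mv g w).re * 2 ^ L⌋, ⌊(mv g w).im * 2 ^ L⌋), ROT_mem L (mv g w)⟩
  have hsum : ∀ A : Set ℂ, MeasurableSet A → volume A = ∑' s, volume (A ∩ Q s) := by
    intro A hA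
    have h1 : A = ⋃ s, A ∩ Q s := by rw [← inter_iUnion, hQu, inter_univ]
    conv_lhs => rw [h1]
    refine measure_iUnion ?_ fun s => hA.inter (hQm s)
    intro s t hst
    exact (hQd hst).mono inter_subset_right inter_subset_right
  have h0 : 0 ≤ 1 - 2 * κ := by linarith
  have key : ∀ s, volume (C ∩ mv g ⁻¹' X ∩ Q s) ≤
      ENNReal.ofReal (1 - 2 * κ) * volume (C ∩ Q s) + volume (C \ I ∩ Q s) := by
    intro s
    by_cases hs : lsq L s.1 s.2 ⊆ mv g '' C
    · have h1 := hcon s.1 s.2 hs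
      have hQC : Q s ⊆ C := by
        intro w hw
        obtain ⟨w', hw', e⟩ := hs hw
        rw [← ROT_inj g e]
        exact hw'
      have h2 : volume (X ∩ lsq L s.1 s.2) ≤ ENNReal.ofReal (1 - 2 * κ) * volume (lsq L s.1 s.2) := by
        have h3 : volume (X ∩ lsq L s.1 s.2) ≠ ⊤ :=
          ne_top_of_le_ne_top hfin (measure_mono inter_subset_left)
        rw [ROT_vol, ← ENNReal.ofReal_mul h0, ← ENNReal.ofReal_toReal h3]
        refine ENNReal.ofReal_le_ofReal ?_
        unfold den at h1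
        rw [measureReal_def] at h1
        rw [mul_one_div, le_div_iff₀ (by positivity)]
        exact h1
      have h4 : volume (Q s) = volume (lsq L s.1 s.2) :=
        (mp_mv g).measure_preimage (ROT_meas L s.1 s.2).nullMeasurableSet
      calc volume (C ∩ mv g ⁻¹' X ∩ Q s) ≤ volume (mv g ⁻¹' (X ∩ lsq L s.1 s.2)) := by
            refine measure_mono ?_
            rintro w ⟨⟨-, h5⟩, h6⟩
            exact ⟨h5, h6⟩
        _ = volume (X ∩ lsq L s.1 s.2) :=
            (mp_mv g).measure_preimage (hX.inter (ROT_meas L s.1 s.2)).nullMeasurableSet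
        _ ≤ ENNReal.ofReal (1 - 2 * κ) * volume (lsq L s.1 s.2) := h2
        _ = ENNReal.ofReal (1 - 2 * κ) * volume (C ∩ Q s) := by
            rw [inter_eq_right.2 hQC, h4]
        _ ≤ _ := le_self_add
    · have h1 : ∀ w ∈ Q s, w ∉ I := by
        intro w hw hwI
        apply hs
        intro z hz
        obtain ⟨w', rfl⟩ := ROT_surj g z
        refine ⟨w', ?_, rfl⟩
        have h2 := ROT_dist (z := mv g w) (z' := mv g w') hw hz
        rw [dist_mv] at h2
        have h3 := Complex.abs_re_le_norm (w' - w)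
        have h4 := Complex.abs_im_le_norm (w' - w)
        rw [Complex.sub_re] at h3
        rw [Complex.sub_im] at h4
        rw [← hσ] at h2
        have h5 := abs_lt.1 (lt_of_le_of_lt h3 h2)
        have h6 := abs_lt.1 (lt_of_le_of_lt h4 h2)
        rw [hI, mem_rc] at hwI
        rw [hC]
        unfold sq
        rw [mem_rc]
        refine ⟨⟨?_, ?_⟩, ?_, ?_⟩ <;>
          linarith [hwI.1.1, hwI.1.2, hwI.2.1, hwI.2.2, h5.1, h5.2, h6.1, h6.2]
      refine le_trans (measure_mono ?_) le_add_self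
      rintro w ⟨⟨h5, -⟩, h6⟩
      exact ⟨⟨h5, h1 w h6⟩, h6⟩
  have hvC : volume C = ENNReal.ofReal (a * a) := volume_rc ha.le ha.le
  have hvI : volume I = ENNReal.ofReal ((a - 4 * σ) * (a - 4 * σ)) :=
    volume_rc (by linarith) (by linarith)
  have hvd : volume (C \ I) = ENNReal.ofReal (a * a - (a - 4 * σ) * (a - 4 * σ)) := by
    rw [measure_diff hIC hIm.nullMeasurableSet (by rw [hvI]; exact ENNReal.ofReal_ne_top), hvC, hvI,
      ENNReal.ofReal_sub _ (mul_self_nonneg _)]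
  have hle : volume (C ∩ mv g ⁻¹' X) ≤
      ENNReal.ofReal ((1 - 2 * κ) * (a * a) + (a * a - (a - 4 * σ) * (a - 4 * σ))) := by
    have h1 : (a - 4 * σ) * (a - 4 * σ) ≤ a * a := by nlinarith
    calc volume (C ∩ mv g ⁻¹' X) = ∑' s, volume (C ∩ mv g ⁻¹' X ∩ Q s) :=
          hsum _ (hCm.inter (hmv hX))
      _ ≤ ∑' s, (ENNReal.ofReal (1 - 2 * κ) * volume (C ∩ Q s) + volume (C \ I ∩ Q s)) :=
          ENNReal.tsum_le_tsum key
      _ = ENNReal.ofReal (1 - 2 * κ) * volume C + volume (C \ I) := by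
          rw [ENNReal.tsum_add, ENNReal.tsum_mul_left, ← hsum C hCm, ← hsum (C \ I) (hCm.diff hIm)]
      _ = _ := by
          rw [hvC, hvd, ← ENNReal.ofReal_mul h0, ← ENNReal.ofReal_add (by positivity) (by linarith)]
  have hfinal : occ X g C ≤ (1 - 2 * κ) * (a * a) + (a * a - (a - 4 * σ) * (a - 4 * σ)) := by
    unfold occ
    rw [measureReal_def]
    refine ENNReal.toReal_le_of_le_ofReal ?_ hle
    have h1 : (a - 4 * σ) * (a - 4 * σ) ≤ a * a := by nlinarith
    have h2 : 0 ≤ (1 - 2 * κ) * (a * a) := by positivity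
    linarith
  nlinarith [mul_pos hσ0 ha]

end Pool.Agent.MW
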